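import Pool.Agent.Helper39.Uct.Goals3

open Pool.Agent.Helper39.Uct

namespace Pool.Agent.Helper11.Uct2

theorem separable_of_injective {A E : Type} [NonUnitalCStarAlgebra A] [NonUnitalCStarAlgebra E]
    [TopologicalSpace.SeparableSpace E] (κ : A →⋆ₙₐ[ℂ] E) (h : Function.Injective κ) :
    TopologicalSpace.SeparableSpace A := by
  haveI : SecondCountableTopology E := UniformSpace.secondCountable_of_separable E
  have hi : Isometry κ := NonUnitalStarAlgHom.isometry κ h
  haveI : SecondCountableTopology A := hi.isEmbedding.secondCountableTopology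
  infer_instance

theorem tt : S_MS → S_COR → S_MAT → S_CRZ → S_TT := by
  intro hMS hCOR hMAT hCRZ 𝒞 h𝒞 Q _ f hf hA B _ _ G hComm hGauge
  obtain ⟨E, _, e, he, hsep⟩ := hMS B
  obtain ⟨A, _, κ, hκi, hκr, hW⟩ := hMAT Q B E G f hf hComm e he
  haveI := separable_of_injective κ hκi
  have h1 : 𝒞 A := hA A hW
  obtain ⟨α, j, hcross⟩ := hCRZ Q B E G f hGauge e he A κ hκi hκr
  have h2 : 𝒞 E := h𝒞.crossZ A E α j hcross h1
  obtain ⟨κ', _, hH, hF⟩ := hCOR B E e he
  exact (h𝒞.hered B E κ' hH hF).2 h2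

end Pool.Agent.Helper11.Uct2
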